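import Mathlib
import Pool.Agent.K4H13.CY.Trans

/-!
# Oriented cycle double covers of Cayley graphs

The oriented cycle double cover conjecture (Q1) is proved for

* all Cayley graphs of all finite groups with at least two generators;
* all finite graphs of valency `≠ 1` with a group of automorphisms that is transitive on the vertices and
  acts freely on the arcs (this includes the Cayley graphs and the graphs with an arc-regular group);
* all finite graphs with a group of automorphisms that acts freely on the arcs and has, for one prime
  `p`, an element of order `p` fixing `v` for every non-isolated vertex `v`;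
* all generalised Petersen graphs of two elements `r, l` of order at least three of a finite group
  with `r ∉ ⟨rl⟩`, in particular if `r` and `l` do not commute.

Proof.  It is enough to partition the arcs into sets without opposite arcs and with equal in-degree
and out-degree at every vertex.  Unions of two even subgraphs have such a partition.  This settles
Cayley graphs with an even number of generators, with two involutions, or with an involution and a
generator of even order.  In the remaining case there are an involution `a` and a generator `b` of odd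
order, and `{a, b, b⁻¹}` can be treated separately: if `a ∉ ⟨ba⟩`, one takes the closed walks
`x, xb, xba, xbab, ...` and the cycles of `b⁻¹`; if `a ∈ ⟨ba⟩`, then `a` and `b` commute and the graph
consists of prisms.  For a group acting freely on the arcs one chooses for every arc `e` a rotation
`ρ(e)` of order `p` around its tail, invariantly, and follows the facial walks; if such a walk meets an
edge in both directions, then either the rotations of the two arcs coincide (so that `ρ(e)` fixes an
arc), or `p` divides `m` and `m + 1` for some `m`; both are impossible.  For the generalised Petersen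
graphs one takes the closed walks with the steps `r`, spoke, `l`, spoke and the cycles of `r⁻¹` and `l⁻¹`.
-/

set_option autoImplicit false

namespace Pool.Agent.Results.MP_781dd6_co.CayleyGraphs

open Pool.Agent.K4H13.CY

open scoped Classical in
/-- Q1 holds for `G`: a finite list of directed cycles (length at least three) that traverses every
edge exactly once in each of its two directions (the form of the frozen statement). -/
def OrientedCDC {V : Type} (G : SimpleGraph V) : Prop :=
  ∃ C : List (Σ v : V, G.Walk v v),
    (∀ c ∈ C, c.2.IsCycle) ∧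
    ∀ u v : V, G.Adj u v →
      (C.map (fun c => (c.2.darts.filter (fun d => decide (d.toProd = (u, v)))).length)).sum = 1

/-- The Cayley graph of `H` with connection set `S` (not containing `1`, closed under inverses):
`x ~ xs` for `s ∈ S`.  It is not assumed that `S` generates `H`. -/
def cayleyGraph {H : Type} [Group H] (S : Set H) (h1 : (1 : H) ∉ S) (hinv : ∀ s ∈ S, s⁻¹ ∈ S) :
    SimpleGraph H where
  Adj x y := x⁻¹ * y ∈ S
  symm := ⟨fun x y h => by
    have := hinv _ h
    rwa [mul_inv_rev, inv_inv] at this⟩
  loopless := ⟨fun x h => h1 (by rwa [inv_mul_cancel] at h)⟩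

/-- The generalised Petersen graph of two elements `r, l` of a group `H`: the vertices are `(x, i)`
with `x ∈ H` and `i ∈ {0, 1}`, and `(x,0) ~ (xr,0)`, `(x,1) ~ (xl,1)`, `(x,0) ~ (x,1)`.  (For `H = ℤ/n`
and `r = 1` these are the usual generalised Petersen graphs.) -/
def petersenGraph {H : Type} [Group H] (r l : H) (hr : r ≠ 1) (hl : l ≠ 1) :
    SimpleGraph (H × Bool) where
  Adj u v := (u.2 = false ∧ v.2 = false ∧ (v.1 = u.1 * r ∨ u.1 = v.1 * r)) ∨
    (u.2 = true ∧ v.2 = true ∧ (v.1 = u.1 * l ∨ u.1 = v.1 * l)) ∨
    (u.2 ≠ v.2 ∧ u.1 = v.1)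
  symm := ⟨by
    rintro u v (⟨h1, h2, h3 | h3⟩ | ⟨h1, h2, h3 | h3⟩ | ⟨h1, h2⟩)
    · exact Or.inl ⟨h2, h1, Or.inr h3⟩
    · exact Or.inl ⟨h2, h1, Or.inl h3⟩
    · exact Or.inr (Or.inl ⟨h2, h1, Or.inr h3⟩)
    · exact Or.inr (Or.inl ⟨h2, h1, Or.inl h3⟩)
    · exact Or.inr (Or.inr ⟨h1.symm, h2.symm⟩)⟩
  loopless := ⟨by
    rintro u (⟨_, _, h3 | h3⟩ | ⟨_, _, h3 | h3⟩ | ⟨h1, _⟩)
    · exact hr (by simpa using h3)
    · exact hr (by simpa using h3)
    · exact hl (by simpa using h3)
    · exact hl (by simpa using h3)
    · exact h1 rfl⟩

theorem result :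
    -- (1) Cayley graphs with at least two generators
    (∀ (H : Type) [Group H] [Finite H] (S : Set H) (h1 : (1 : H) ∉ S) (hinv : ∀ s ∈ S, s⁻¹ ∈ S),
      2 ≤ S.ncard → OrientedCDC (cayleyGraph S h1 hinv)) ∧
    -- (2) a group that is transitive on the vertices and acts freely on the arcs
    (∀ (V : Type) [Finite V] (G : SimpleGraph V) (Γ : Subgroup (G ≃g G)),
      (∀ u v : V, ∃ g ∈ Γ, g u = v) →
      (∀ g ∈ Γ, ∀ u v : V, G.Adj u v → g u = u → g v = v → g = 1) →
      (∀ v : V, (G.neighborSet v).ncard ≠ 1) → OrientedCDC G) ∧
    -- (3) a group acting freely on the arcs with rotations of order `p` around all the vertices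
    (∀ (V : Type) [Finite V] (G : SimpleGraph V) (Γ : Subgroup (G ≃g G)) (p : ℕ), p.Prime →
      (∀ g ∈ Γ, ∀ u v : V, G.Adj u v → g u = u → g v = v → g = 1) →
      (∀ v : V, G.neighborSet v ≠ ∅ → ∃ g ∈ Γ, g v = v ∧ orderOf g = p) → OrientedCDC G) ∧
    -- (4) generalised Petersen graphs over groups
    (∀ (H : Type) [Group H] [Finite H] (r l : H) (hr : r ≠ 1) (hl : l ≠ 1),
      3 ≤ orderOf r → 3 ≤ orderOf l → r * l ≠ l * r ∨ r ∉ Subgroup.zpowers (r * l) →
      OrientedCDC (petersenGraph r l hr hl)) := by
  refine ⟨?_, ?_, ?_, ?_⟩
  · intro H _ _ S h1 hinv h2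
    have : Fintype H := Fintype.ofFinite H
    exact (fam_cay S h1 hinv h2).oc
  · intro V _ G Γ ht hf hv
    have : Fintype V := Fintype.ofFinite V
    by_cases hV : Nonempty V
    · obtain ⟨v₀⟩ := hV
      let _ : MulAction Γ V :=
        { smul := fun g v => (g : G ≃g G) v
          one_smul := fun v => rfl
          mul_smul := fun g h v => rfl }
      by_cases h0 : G.neighborSet v₀ = ∅
      · have hempty : ∀ u v, ¬ G.Adj u v := by
          intro u v huv
          obtain ⟨g, -, hg⟩ := ht u v₀
          have h3 : g v ∈ G.neighborSet v₀ := by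
            show G.Adj v₀ (g v)
            rw [← hg]
            exact g.map_rel_iff.2 huv
          rw [h0] at h3
          exact h3
        exact ⟨[], by simp, fun u v huv => absurd huv (hempty u v)⟩
      · have h2 : 2 ≤ {w | G.Adj v₀ w}.ncard := by
          have h3 := hv v₀
          have h4 : (G.neighborSet v₀).ncard ≠ 0 := by
            rw [Ne, Set.ncard_eq_zero (Set.toFinite _)]
            exact h0
          show 2 ≤ (G.neighborSet v₀).ncard
          omega
        exact (fam_transitive (Γ := Γ) (fun g u v h => (g : G ≃g G).map_rel_iff.2 h)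
          (fun u v => by
            obtain ⟨g, hg, hgu⟩ := ht u v
            exact ⟨⟨g, hg⟩, hgu⟩)
          (fun g u v h hu hw => Subtype.ext (hf g g.2 u v h hu hw)) v₀ h2).oc
    · exact ⟨[], by simp, fun u => absurd ⟨u⟩ hV⟩
  · intro V _ G Γ p hp hf hr
    have : Fintype V := Fintype.ofFinite V
    let _ : MulAction Γ V :=
      { smul := fun g v => (g : G ≃g G) v
        one_smul := fun v => rfl
        mul_smul := fun g h v => rfl }
    exact (fam_rotations (Γ := Γ) (fun g u v h => (g : G ≃g G).map_rel_iff.2 h)
      (fun g u v h hu hw => Subtype.ext (hf g g.2 u v h hu hw)) p hp (fun u v huv => by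
        obtain ⟨g, hg, hgu, ho⟩ := hr u (fun h => by
          have : v ∈ G.neighborSet u := huv
          rw [h] at this
          exact this)
        exact ⟨⟨g, hg⟩, hgu, by rw [← ho, ← Subgroup.orderOf_coe]⟩)).oc
  · intro H _ _ r l hr hl hr3 hl3 h
    have : Fintype H := Fintype.ofFinite H
    have h2 : ∀ a : H, 3 ≤ orderOf a → a⁻¹ ≠ a := by
      intro a ha h
      have h3 : a ^ 2 = 1 := by
        rw [pow_two]
        nth_rewrite 1 [← h]
        exact inv_mul_cancel a
      have := Nat.le_of_dvd two_pos (orderOf_dvd_of_pow_eq_one h3)
      omega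
    rcases h with h | h
    · exact (fam_petersen_noncomm r l hr hl (h2 r hr3) (h2 l hl3) h).oc
    · exact (fam_petersen r l hr hl (h2 r hr3) (h2 l hl3) h).oc

end Pool.Agent.Results.MP_781dd6_co.CayleyGraphs
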