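import Pool.Agent.K4H80.OK.Two

/-!
# Every multiplicity at least two; at least half of the edges (MP_781dd6_co)

Let `G` be a finite simple graph without cut edges.

(1) For every `k ≥ 2` there is a list of directed cycles (of length at least three) which traverses
every arc of the associated digraph `D(G)` exactly `k` times. (The question is the case `k = 1`.)

(2) There are a list of directed cycles and an even subgraph `D` with at most half of the edges of
`G` such that every edge of `G` is traversed exactly twice in total, and every edge outside `D`
exactly once in each direction. (The question is whether `D` can be empty.)

Proof. By the cycle double cover theorem of the starting library there are eight even subgraphs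
that cover every edge exactly twice, so there are eight integer flows `g_c` with values `0, 1, -1`,
exactly two of them nonzero on every edge. The flows `g_c` and `-g_c` give (1) for `k = 2`. For `k = 3`
three even subgraphs that cover all edges (unions of four of the eight classes) give an integer flow
`φ = x₀ + 2 x₁ + 4 x₂` with `0 < |φ| < 8`; there is an integer flow `χ` with values in
`{0, 1, -1, 2, -2}` and `χ = φ` modulo three (rounding), so that `φ` and `ψ = (φ - χ) / 3` are two
integer flows that are not both divisible by three on any edge. Exactly three of the flows `φ`, `ψ`,
`φ + ψ`, `φ - ψ` are not divisible by three on a given edge. The arcs on which an integer flow is one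
modulo three split into three sets with equal net out-degrees at every vertex (integrality of
flows), and the three differences of two of these sets are flows with values `0, 1, -1` which
traverse every arc on which the flow is not divisible by three exactly once. The multiplicities
two and three generate all multiplicities at least two.

(2) For the eight characters `ε` of the group of the classes the sum of the flows `ε(c) g_c` is
twice a flow with values `0, 1, -1`; its support is the set `D` of the edges that are traversed twice
in the same direction, and every edge is in `D` for exactly four of the eight characters.
-/

set_option autoImplicit false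

namespace Pool.Agent.Results.MP_781dd6_co.EveryMultiplicity

open scoped Classical in
/-- how often the closed walks of the list `C` traverse the arc from `u` to `v` -/
noncomputable def uses {V : Type} {G : SimpleGraph V} (C : List (Σ v : V, G.Walk v v)) (u v : V) :
    ℕ :=
  (C.map (fun c => (c.2.darts.filter (fun d => decide (d.toProd = (u, v)))).length)).sum

theorem result :
    ∀ (V : Type) [Fintype V] (G : SimpleGraph V),
      (∀ u v : V, G.Adj u v → (G.deleteEdges {s(u, v)}).Reachable u v) →
      -- (1) every arc exactly `k` times
      (∀ k : ℕ, 2 ≤ k → ∃ C : List (Σ v : V, G.Walk v v),
        (∀ c ∈ C, c.2.IsCycle) ∧ ∀ u v : V, G.Adj u v → uses C u v = k) ∧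
      -- (2) every edge exactly twice, at least half of the edges once in each direction
      (∃ (D : SimpleGraph V) (C : List (Σ v : V, G.Walk v v)), D ≤ G ∧
        (∀ v, Even (D.neighborSet v).ncard) ∧ 2 * D.edgeSet.ncard ≤ G.edgeSet.ncard ∧
        (∀ c ∈ C, c.2.IsCycle) ∧ (∀ u v, G.Adj u v → uses C u v + uses C v u = 2) ∧
        ∀ u v, G.Adj u v → ¬ D.Adj u v → uses C u v = 1) := by
  intro V _ G hG
  exact ⟨fun k hk => Pool.Agent.K4H80.OK.kfold_all G hG k hk,
    Pool.Agent.K4H80.OK.half_oriented G hG⟩

end Pool.Agent.Results.MP_781dd6_co.EveryMultiplicity
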