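import Pool.Agent.K4H79.OC.Chain

/-!
# Orientable five cycle double covers: few small cuts (MP_781dd6_co)

The oriented cycle double cover conjecture, with five classes, holds for every finite bridgeless
multigraph which does not have twelve pairwise disjoint sets of vertices with one, two or three
boundary edges each, and also for every finite bridgeless multigraph which does not have eighteen
pairwise disjoint sets of vertices with between one and seven boundary edges each.  (With zero in
place of eleven, resp. seventeen, such graphs are 4-edge-connected and the result is Jaeger's.)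

For simple graphs this gives a condition on vertices: add the number of the vertices of degree at
most three (resp. seven) to the maximum number of vertices of larger degree whose closed
neighbourhoods are pairwise disjoint; if the sum is at most eleven (resp. seventeen), then the
associated digraph decomposes into directed cycles of length at least three, in five families none
of which uses an edge twice.  For example, it holds for all simple graphs without cut edges with
minimum degree `d >= 8` which have no independent set with eighteen vertices, or have a dominating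
set with at most seventeen vertices, or fewer than `18 (d + 1)` vertices.

Proof.  Take a chain of edge sets (each with at most four edges and no bridge, or with two disjoint
connectors, modulo the earlier ones) with the largest union.  If there is no cover, then by
`five16M` (starting library) the contraction of the union has at least seventeen, hence eighteen,
vertices of odd degree, and by maximality it has no circuit with at most four edges and no set of
edges with two disjoint connectors.  By matroid union it has at most `2 n - 3` edges if `n` vertices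
are not isolated, so that twelve vertices have degree two or three.  If at most seventeen vertices
have degree at most seven, it follows that `n <= 19` and at most one degree is even, and that there
is a vertex of degree at least nine; since there are no circuits of length at most four, the
degrees of its neighbours have sum at most eighteen, so all nine have degree two, a contradiction.
-/

set_option autoImplicit false

open Finset

namespace Pool.Agent.Results.MP_781dd6_co.FewSmallCuts

open Pool.Agent.H160R2.HF Pool.Agent.H23.PS

/-- The edges with exactly one end in `Y`. -/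
def boundary {V E : Type} [DecidableEq V] [Fintype E] (K : OrGraph V E) (Y : Finset V) :
    Finset E :=
  Finset.univ.filter (fun e => ¬ (K.t e ∈ Y ↔ K.h e ∈ Y))

/-- There are `n` pairwise disjoint sets of vertices with between one and `k` boundary edges. -/
def SmallCuts {V E : Type} [DecidableEq V] [Fintype E] (K : OrGraph V E) (n k : ℕ) : Prop :=
  ∃ X : Fin n → Finset V, (∀ i j, i ≠ j → Disjoint (X i) (X j)) ∧
    ∀ i, (boundary K (X i)).card ≠ 0 ∧ (boundary K (X i)).card ≤ k

/-- The number of the vertices of degree at most `k`, plus the number of the elements of any set of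
vertices of degree greater than `k` whose closed neighbourhoods are pairwise disjoint, is at most
`n`. -/
def FewLow {V : Type} (S : SimpleGraph V) (n k : ℕ) : Prop :=
  ∀ B : Set V, (∀ v ∈ B, k < {w | S.Adj v w}.ncard) →
    (∀ u ∈ B, ∀ v ∈ B, u ≠ v → Disjoint (insert u {w | S.Adj u w}) (insert v {w | S.Adj v w})) →
    {v | {w | S.Adj v w}.ncard ≤ k}.ncard + B.ncard ≤ n

open scoped Classical in
/-- how often the closed walks of the list `C` traverse the arc from `u` to `v` -/
noncomputable def uses {V : Type} {S : SimpleGraph V} (C : List (Σ v : V, S.Walk v v)) (u v : V) :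
    ℕ :=
  (C.map (fun c => (c.2.darts.filter (fun d => decide (d.toProd = (u, v)))).length)).sum

/-- The associated digraph of `S` decomposes into directed cycles of length at least three, in five
families none of which uses an edge twice. -/
def FiveFamilies {V : Type} (S : SimpleGraph V) : Prop :=
  ∃ C : Fin 5 → List (Σ v : V, S.Walk v v), (∀ i, ∀ c ∈ C i, c.2.IsCycle) ∧
    (∀ i u v, uses (C i) u v + uses (C i) v u ≤ 1) ∧
    ∀ u v, S.Adj u v → ∑ i, uses (C i) u v = 1

theorem multi (V E : Type) [Fintype V] [DecidableEq V] [Fintype E] [DecidableEq E]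
    (K : OrGraph V E) (hb : ∀ Y : Finset V, (boundary K Y).card ≠ 1)
    (h : ¬ SmallCuts K 12 3 ∨ ¬ SmallCuts K 18 7) : FiveClasses K := by
  by_contra hno
  obtain ⟨h1, h2⟩ := Pool.Agent.K4H79.OC.few_main K.t K.h hb hno
  rcases h with h | h
  · exact h h1
  · exact h h2

/-- The edges of a simple graph, in one direction. -/
noncomputable def orient {V : Type} (S : SimpleGraph V) : OrGraph V S.edgeSet where
  t := fun e => (Quot.out e.1).1
  h := fun e => (Quot.out e.1).2

theorem orient_mk {V : Type} (S : SimpleGraph V) (e : S.edgeSet) :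
    s((orient S).t e, (orient S).h e) = e.1 := Quot.out_eq e.1

theorem orient_adj {V : Type} (S : SimpleGraph V) (e : S.edgeSet) :
    S.Adj ((orient S).t e) ((orient S).h e) := by
  rw [← SimpleGraph.mem_edgeSet, orient_mk]
  exact e.2

theorem orient_is {V : Type} (S : SimpleGraph V) : IsOrientation S (orient S) := by
  refine ⟨orient_adj S, fun u v huv => ⟨⟨s(u, v), huv⟩, ?_, ?_⟩⟩
  · have h := orient_mk S ⟨s(u, v), huv⟩
    rcases Sym2.eq_iff.1 h with ⟨h1, h2⟩ | ⟨h1, h2⟩
    · exact Or.inl ⟨h1, h2⟩
    · exact Or.inr ⟨h2, h1⟩
  · intro e he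
    apply Subtype.ext
    rw [← orient_mk S e]
    rcases he with ⟨h1, h2⟩ | ⟨h1, h2⟩
    · show s((orient S).t e, (orient S).h e) = s(u, v)
      rw [h1, h2]
    · show s((orient S).t e, (orient S).h e) = s(u, v)
      rw [h1, h2, Sym2.eq_swap]

theorem mem_boundary {V : Type} [DecidableEq V] (S : SimpleGraph V) [Fintype S.edgeSet]
    (Y : Finset V) (u v : V) (huv : S.Adj u v) :
    (⟨s(u, v), huv⟩ : S.edgeSet) ∈ boundary (orient S) Y ↔ ¬ (u ∈ Y ↔ v ∈ Y) := by
  unfold boundary
  rw [mem_filter]
  have h2 := orient_mk S ⟨s(u, v), huv⟩
  rcases Sym2.eq_iff.1 h2 with ⟨h3, h4⟩ | ⟨h3, h4⟩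
  · rw [h3, h4]
    simp
  · rw [h3, h4]
    simp only [mem_univ, true_and]
    exact ⟨fun h h' => h h'.symm, fun h h' => h h'.symm⟩

theorem orient_bridgeless {V : Type} [Fintype V] [DecidableEq V] (S : SimpleGraph V)
    [Fintype S.edgeSet]
    (h : ∀ u v : V, S.Adj u v → (S.deleteEdges {s(u, v)}).Reachable u v) (Y : Finset V) :
    (boundary (orient S) Y).card ≠ 1 := by
  intro hc
  obtain ⟨e, he⟩ := card_eq_one.mp hc
  have hm : ∀ e', e' ∈ boundary (orient S) Y ↔
      ¬ ((orient S).t e' ∈ Y ↔ (orient S).h e' ∈ Y) := by
    intro e'
    unfold boundary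
    rw [mem_filter]
    simp
  have hee : e ∈ boundary (orient S) Y := by rw [he]; exact mem_singleton_self e
  have hadj : ∀ a b, (S.deleteEdges {s((orient S).t e, (orient S).h e)}).Adj a b →
      (a ∈ Y ↔ b ∈ Y) := by
    intro a b hab
    rw [SimpleGraph.deleteEdges_adj] at hab
    by_contra hcon
    have h1 : (⟨s(a, b), hab.1⟩ : S.edgeSet) ∈ boundary (orient S) Y := by
      rw [mem_boundary]
      exact hcon
    rw [he, mem_singleton] at h1
    apply hab.2
    rw [Set.mem_singleton_iff, orient_mk, ← h1]
  obtain ⟨p⟩ := h _ _ (orient_adj S e)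
  have key : ∀ a b, (S.deleteEdges {s((orient S).t e, (orient S).h e)}).Walk a b →
      (a ∈ Y ↔ b ∈ Y) := by
    intro a b p
    induction p with
    | nil => exact Iff.rfl
    | cons hab _ ih => exact (hadj _ _ hab).trans ih
  exact (hm e).1 hee (key _ _ p)

/-- A set with at most `k` boundary edges all of whose elements have degree greater than `k`
contains a closed neighbourhood. -/
theorem interior {V : Type} [Fintype V] [DecidableEq V] (S : SimpleGraph V) [Fintype S.edgeSet]
    (k : ℕ) (X : Finset V) (h0 : (boundary (orient S) X).card ≠ 0)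
    (hk : (boundary (orient S) X).card ≤ k) (hd : ∀ x ∈ X, k < {w | S.Adj x w}.ncard) :
    ∃ x ∈ X, ∀ w, S.Adj x w → w ∈ X := by
  classical
  by_contra hcon
  push Not at hcon
  choose! f hf1 hf2 using hcon
  obtain ⟨x, hx⟩ : X.Nonempty := by
    rw [nonempty_iff_ne_empty]
    rintro rfl
    apply h0
    unfold boundary
    simp
  have h1 : ∀ w ∈ (univ.filter (fun w => S.Adj x w)), ∃ e ∈ boundary (orient S) X,
      (w ∈ X → ∃ h : S.Adj w (f w), e = ⟨s(w, f w), h⟩) ∧
      (w ∉ X → ∃ h : S.Adj x w, e = ⟨s(x, w), h⟩) := by
    intro w hw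
    rw [mem_filter] at hw
    by_cases hwX : w ∈ X
    · refine ⟨⟨s(w, f w), hf1 w hwX⟩, ?_, fun _ => ⟨hf1 w hwX, rfl⟩, fun h => absurd hwX h⟩
      rw [mem_boundary]
      exact fun h => hf2 w hwX (h.1 hwX)
    · refine ⟨⟨s(x, w), hw.2⟩, ?_, fun h => absurd h hwX, fun _ => ⟨hw.2, rfl⟩⟩
      rw [mem_boundary]
      exact fun h => hwX (h.1 hx)
  obtain ⟨e0, -⟩ := card_pos.1 (Nat.pos_of_ne_zero h0)
  have : Nonempty S.edgeSet := ⟨e0⟩
  choose! g hg1 hg2 hg3 using h1
  have h2 : (univ.filter (fun w => S.Adj x w)).card ≤ (boundary (orient S) X).card := by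
    apply card_le_card_of_injOn g hg1
    intro a ha b hb hab
    rw [mem_coe] at ha hb
    have hxa : x ≠ a := (SimpleGraph.ne_of_adj S (mem_filter.1 ha).2)
    have hxb : x ≠ b := (SimpleGraph.ne_of_adj S (mem_filter.1 hb).2)
    by_cases haX : a ∈ X
    · obtain ⟨p1, p2⟩ := hg2 a ha haX
      by_cases hbX : b ∈ X
      · obtain ⟨p3, p4⟩ := hg2 b hb hbX
        rw [p2, p4] at hab
        rcases Sym2.eq_iff.1 (congrArg Subtype.val hab) with ⟨h3, _⟩ | ⟨h3, _⟩
        · exact h3
        · exact absurd (h3 ▸ haX) (hf2 b hbX)
      · obtain ⟨p3, p4⟩ := hg3 b hb hbX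
        rw [p2, p4] at hab
        rcases Sym2.eq_iff.1 (congrArg Subtype.val hab) with ⟨h3, _⟩ | ⟨h3, _⟩
        · exact absurd h3.symm hxa
        · exact absurd (h3 ▸ haX) hbX
    · obtain ⟨p1, p2⟩ := hg3 a ha haX
      by_cases hbX : b ∈ X
      · obtain ⟨p3, p4⟩ := hg2 b hb hbX
        rw [p2, p4] at hab
        rcases Sym2.eq_iff.1 (congrArg Subtype.val hab) with ⟨h3, _⟩ | ⟨_, h3⟩
        · exact absurd h3 hxb
        · exact absurd (h3 ▸ hbX) haX
      · obtain ⟨p3, p4⟩ := hg3 b hb hbX
        rw [p2, p4] at hab
        exact Sym2.congr_right.1 (congrArg Subtype.val hab)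
  have h3 : {w | S.Adj x w}.ncard = (univ.filter (fun w => S.Adj x w)).card := by
    rw [← Set.ncard_coe_finset]
    congr 1
    ext w
    simp
  have h4 := hd x hx
  omega

theorem simple {V : Type} [Fintype V] [DecidableEq V] (S : SimpleGraph V) [Fintype S.edgeSet]
    (n k : ℕ) (h : FewLow S n k) : ¬ SmallCuts (orient S) (n + 1) k := by
  classical
  rintro ⟨X, hX1, hX2⟩
  have h1 : ∀ i, ∃ y ∈ X i, {w | S.Adj y w}.ncard ≤ k ∨
      (k < {w | S.Adj y w}.ncard ∧ ∀ w, S.Adj y w → w ∈ X i) := by
    intro i
    by_cases h2 : ∃ y ∈ X i, {w | S.Adj y w}.ncard ≤ k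
    · obtain ⟨y, hy, hyk⟩ := h2
      exact ⟨y, hy, Or.inl hyk⟩
    · push Not at h2
      obtain ⟨y, hy, hy2⟩ := interior S k (X i) (hX2 i).1 (hX2 i).2 h2
      exact ⟨y, hy, Or.inr ⟨h2 y hy, hy2⟩⟩
  choose y hy1 hy2 using h1
  have hinj : Function.Injective y := by
    intro i j hij
    by_contra hne
    have := (disjoint_left.1 (hX1 i j hne)) (hy1 i)
    rw [hij] at this
    exact this (hy1 j)
  set I : Finset (Fin (n + 1)) := univ.filter (fun i => {w | S.Adj (y i) w}.ncard ≤ k) with hI
  set J : Finset (Fin (n + 1)) := univ.filter (fun i => ¬ {w | S.Adj (y i) w}.ncard ≤ k) with hJ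
  have hIJ : I.card + J.card = n + 1 := by
    rw [hI, hJ, card_filter_add_card_filter_not, card_univ, Fintype.card_fin]
  have hB := h ((J.image y : Finset V) : Set V) (by
    intro v hv
    rw [mem_coe, mem_image] at hv
    obtain ⟨i, hi, rfl⟩ := hv
    rw [hJ, mem_filter] at hi
    exact not_le.1 hi.2) (by
    intro u hu v hv huv
    rw [mem_coe, mem_image] at hu hv
    obtain ⟨i, hi, rfl⟩ := hu
    obtain ⟨j, hj, rfl⟩ := hv
    rw [hJ, mem_filter] at hi hj
    have hij : i ≠ j := fun h' => huv (by rw [h'])
    have key : ∀ i, ¬ {w | S.Adj (y i) w}.ncard ≤ k →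
        ∀ w ∈ insert (y i) {w | S.Adj (y i) w}, w ∈ X i := by
      intro i hi w hw
      rcases hw with rfl | hw
      · exact hy1 i
      · rcases hy2 i with h' | h'
        · exact absurd h' hi
        · exact h'.2 w hw
    rw [Set.disjoint_left]
    intro w hw hw'
    exact (disjoint_left.1 (hX1 i j hij)) (key i hi.2 w hw) (key j hj.2 w hw'))
  rw [Set.ncard_coe_finset, card_image_of_injective _ hinj] at hB
  have hlow : I.card ≤ {v | {w | S.Adj v w}.ncard ≤ k}.ncard := by
    rw [← card_image_of_injective I hinj, ← Set.ncard_coe_finset]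
    apply Set.ncard_le_ncard _ (Set.toFinite _)
    intro v hv
    rw [mem_coe, mem_image] at hv
    obtain ⟨i, hi, rfl⟩ := hv
    rw [hI, mem_filter] at hi
    exact hi.2
  omega

/-- (1) Every finite bridgeless multigraph without twelve pairwise disjoint sets of vertices with
one to three boundary edges each, or without eighteen pairwise disjoint sets of vertices with one to
seven boundary edges each, has an orientable cycle double cover with five classes.

(2) If such a multigraph is an orientation of a simple graph `S`, the associated digraph of `S`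
decomposes into directed cycles of length at least three, in five families none of which uses an
edge twice.

(3) This holds for every finite simple graph without cut edges in which the number of the vertices
of degree at most three (at most seven), plus the maximum number of vertices of larger degree whose
closed neighbourhoods are pairwise disjoint, is at most eleven (at most seventeen). -/
theorem result :
    (∀ (V E : Type) [Fintype V] [DecidableEq V] [Fintype E] [DecidableEq E] (K : OrGraph V E),
      (∀ Y : Finset V, (boundary K Y).card ≠ 1) →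
      (¬ SmallCuts K 12 3 ∨ ¬ SmallCuts K 18 7) → FiveClasses K) ∧
    (∀ (V E : Type) [Fintype V] [DecidableEq V] [Fintype E] [DecidableEq E] (K : OrGraph V E)
      (S : SimpleGraph V), IsOrientation S K → (∀ Y : Finset V, (boundary K Y).card ≠ 1) →
      (¬ SmallCuts K 12 3 ∨ ¬ SmallCuts K 18 7) → FiveFamilies S) ∧
    (∀ (V : Type) [Fintype V] (S : SimpleGraph V),
      (∀ u v : V, S.Adj u v → (S.deleteEdges {s(u, v)}).Reachable u v) →
      (FewLow S 11 3 ∨ FewLow S 17 7) → FiveFamilies S) := by
  refine ⟨fun V E _ _ _ _ K hb h => multi V E K hb h, fun V E _ _ _ _ K S hS hb h => ?_,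
    fun V _ S hb h => ?_⟩
  · obtain ⟨C, h1, h2, h3⟩ := cycles_of_classes S K hS (multi V E K hb h)
    exact ⟨C, h1, h2, h3⟩
  · classical
    have : Fintype S.edgeSet := Fintype.ofFinite _
    obtain ⟨C, h1, h2, h3⟩ := cycles_of_classes S (orient S) (orient_is S)
      (multi V _ _ (orient_bridgeless S hb) (by
        rcases h with h | h
        · exact Or.inl (simple S 11 3 h)
        · exact Or.inr (simple S 17 7 h)))
    exact ⟨C, h1, h2, h3⟩

end Pool.Agent.Results.MP_781dd6_co.FewSmallCuts
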