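import Pool.Agent.K4H37.TF.Main

/-!
# Oriented cycle double covers of two-fold covers (MP_781dd6_co)

Every finite simple graph `G` without cut edges has a two-fold covering graph `G'` whose associated
digraph `D(G')` decomposes into directed cycles of length at least three; every one of these cycles
is mapped injectively to a cycle of `G`. (The question is whether `G'` can be the disjoint union of
two copies of `G`.)

Proof. By the cycle double cover theorem of the starting library (in the form proved for the result
`EveryMultiplicity`) there is a list of cycles covering every edge of `G` exactly twice. At a
vertex `v` the bipartite graph between the neighbours of `v` and the cycles through `v` (a neighbour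
`w` is joined to the two cycles which contain the edge `vw`) is regular of valency two, so that
there is a perfect matching; let `L v w` be the cycle matched to `w`. The signature of the edge `vw`
is one if `L v w = L w v`. A cycle `c` with a direction passes `v` with the sign `+` if the
neighbour where it leaves `v` is matched to `c`, and with the sign `-` if it is the neighbour from
which it comes. Then the two directions of every cycle lift to two directed cycles of the two-fold
cover, and together they traverse every arc exactly once.
-/

set_option autoImplicit false

namespace Pool.Agent.Results.MP_781dd6_co.TwoFoldCover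

/-- The two-fold covering graph of `G` given by a signature `φ` of the edges: the vertices are the
pairs `(v, a)`, `a` one of two signs, and the two vertices over `u` are joined to the two vertices
over `v` if `uv` is an edge of `G`, with equal signs if `φ (uv)` is false and with opposite signs
if `φ (uv)` is true. -/
def cover {V : Type} (G : SimpleGraph V) (φ : Sym2 V → Bool) : SimpleGraph (V × Bool) where
  Adj x y := G.Adj x.1 y.1 ∧ y.2 = xor x.2 (φ s(x.1, y.1))
  symm := by
    constructor
    rintro ⟨u, a⟩ ⟨v, b⟩ ⟨h1, h2⟩
    refine ⟨h1.symm, ?_⟩
    simp only at *
    rw [h2, Sym2.eq_swap, Bool.xor_assoc, Bool.xor_self, Bool.xor_false]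
  loopless := ⟨fun x h => G.irrefl h.1⟩

/-- the projection of the two-fold cover to `G` -/
def proj {V : Type} (G : SimpleGraph V) (φ : Sym2 V → Bool) : cover G φ →g G where
  toFun := Prod.fst
  map_rel' := fun h => h.1

open scoped Classical in
/-- how often the closed walks of the list `C` traverse the arc from `u` to `v` -/
noncomputable def uses {V : Type} {G : SimpleGraph V} (C : List (Σ v : V, G.Walk v v)) (u v : V) :
    ℕ :=
  (C.map (fun c => (c.2.darts.filter (fun d => decide (d.toProd = (u, v)))).length)).sum

/-- Every finite simple graph without cut edges has a two-fold cover with a list of directed cycles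
(length at least three) which traverses every arc exactly once; the projections of these cycles are
cycles of `G`. -/
theorem result :
    ∀ (V : Type) [Fintype V] (G : SimpleGraph V),
      (∀ u v : V, G.Adj u v → (G.deleteEdges {s(u, v)}).Reachable u v) →
      ∃ (φ : Sym2 V → Bool) (D : List (Σ x : V × Bool, (cover G φ).Walk x x)),
        (∀ c ∈ D, c.2.IsCycle ∧ (c.2.map (proj G φ)).IsCycle) ∧
        ∀ x y : V × Bool, (cover G φ).Adj x y → uses D x y = 1 := by
  intro V _ G hG
  obtain ⟨_, C, _, _, _, hC, h2, _⟩ := Pool.Agent.K4H80.OK.half_oriented G hG
  exact Pool.Agent.K4H37.TF.main G C hC h2

end Pool.Agent.Results.MP_781dd6_co.TwoFoldCover
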